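import Pool.Agent.Q234.KT.Stm2
import Pool.Agent.Q73.KT.GA

/-!
# Project KT, job N2: the operators in the equation for the excited states
-/

set_option autoImplicit false

open scoped BigOperators
open Finset Pool.Agent.Q234.KT Pool.Agent.Q73.KT.GA

namespace Pool.Agent.Q193.KT.N2

section

variable {V : Type} [Fintype V] [DecidableEq V]

theorem l1_expF (h : WalshS) (F : (V → Fin 2) → ℂ) :
    l1 (fun σ => Complex.exp (F σ)) ≤ Real.exp (l1 F) := by
  have e : (fun σ => Complex.exp (F σ)) = fun σ : V → Fin 2 => (Complex.exp (F σ) - 1) + 1 := by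
    funext σ
    ring
  rw [e]
  have h1 := l1_add (fun σ => Complex.exp (F σ) - 1) (fun _ : V → Fin 2 => (1 : ℂ))
  have h2 := l1_exp h F
  have h3 := l1_one h (V := V)
  linarith

theorem l1_w {J : Type} [Fintype J] {b m : ℕ} {t : Finset V → ℕ} {A B : J → Finset V}
    {w : J → (V → Fin 2) → ℂ} {ω : ℝ} (ht : IsSize t) (hω : 0 ≤ ω) (hp : IsPert b m t A B w ω)
    (j : J) : l1 (w j) ≤ 2 ^ b * ω := by
  unfold l1
  have h1 : ∑ X : Finset V, ‖co (w j) X‖ = ∑ X ∈ (B j).powerset, ‖co (w j) X‖ := by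
    symm
    refine Finset.sum_subset (Finset.subset_univ _) fun X _ hX => ?_
    rw [hp.supp j X (fun h => hX (Finset.mem_powerset.2 h)), norm_zero]
  rw [h1]
  calc ∑ X ∈ (B j).powerset, ‖co (w j) X‖ ≤ ∑ X ∈ (B j).powerset, ω :=
        Finset.sum_le_sum fun X _ => hp.bd j X
    _ = 2 ^ (B j).card * ω := by
        rw [Finset.sum_const, Finset.card_powerset, nsmul_eq_mul]
        push_cast
        ring
    _ ≤ 2 ^ b * ω := by
        refine mul_le_mul_of_nonneg_right ?_ hω
        exact pow_le_pow_right₀ (by norm_num) ((ht.card _).trans (hp.size j))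

end

/-- L1S -/
theorem main (h : WalshS) : L1S := by
  intro b m
  refine ⟨m * (2 ^ b * Real.exp (b / 16)) + 1, by positivity, ?_⟩
  intro V _ _ J _ t A B w ω g ht hω hp hg x
  have key : ∀ j, ∑ Y : Finset V, ‖co (fun σ => w j σ * Complex.exp (-2 * Gp g (A j) σ)) Y‖ ≤
      2 ^ b * Real.exp (b / 16) * ω := by
    intro j
    have h1 := l1_mul h (w j) (fun σ => Complex.exp (-2 * Gp g (A j) σ))
    have h2 := l1_w ht hω hp j
    have h3 := l1_expF h (fun σ => -2 * Gp g (A j) σ)
    have h4 : l1 (fun σ => -2 * Gp g (A j) σ) ≤ b / 16 := by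
      rw [l1_smul]
      have h5 := l1_Gp_le h g (A j) (1 / 32) hg
      have h6 : ((A j).card : ℝ) ≤ b := by
        have := (Finset.card_le_card (hp.sub j)).trans ((ht.card _).trans (hp.size j))
        exact_mod_cast this
      have h7 : ‖(-2 : ℂ)‖ = 2 := by norm_num
      rw [h7]
      linarith
    have h8 : l1 (fun σ => Complex.exp (-2 * Gp g (A j) σ)) ≤ Real.exp (b / 16) :=
      h3.trans (Real.exp_le_exp.2 h4)
    calc _ ≤ l1 (w j) * l1 (fun σ => Complex.exp (-2 * Gp g (A j) σ)) := h1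
      _ ≤ (2 ^ b * ω) * Real.exp (b / 16) :=
        mul_le_mul h2 h8 (l1_nonneg _) (by positivity)
      _ = _ := by ring
  calc _ ≤ ∑ j ∈ univ.filter (fun j => x ∈ B j), 2 ^ b * Real.exp (b / 16) * ω :=
        Finset.sum_le_sum fun j _ => key j
    _ = (univ.filter (fun j => x ∈ B j)).card * (2 ^ b * Real.exp (b / 16) * ω) := by
        rw [Finset.sum_const, nsmul_eq_mul]
    _ ≤ m * (2 ^ b * Real.exp (b / 16) * ω) := by
        refine mul_le_mul_of_nonneg_right ?_ (by positivity)
        exact_mod_cast hp.mult x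
    _ ≤ _ := by nlinarith

end Pool.Agent.Q193.KT.N2
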